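import Pool.Agent.H44.NL.Core

/-! The bound for common divisors of `x` and `y - 1`. -/

namespace Pool.Agent.H44.NL
open Finset Polynomial

/-- crude constant -/
noncomputable def cst (q m : ℕ) : ℝ :=
  Real.exp ((m + 1) + 1 + (Real.log 4 + 4) * (q + m) * m + (q + m) * m)

lemma factor_le {q m n : ℕ} (hn : 1 ≤ n) :
    ((n + m + 1 : ℕ) : ℝ) * (2 ^ n * (Nat.lcmUpto (q * n + m) : ℝ) ^ m * ((q * n + m : ℕ) : ℝ) ^ m)
      ≤ (cst q m) ^ n := by
  have hn' : (1 : ℝ) ≤ n := by exact_mod_cast hn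
  have hqn : ((q * n + m : ℕ) : ℝ) ≤ (q + m) * n := by
    push_cast
    have : (m : ℝ) * 1 ≤ m * n := by gcongr
    nlinarith
  have h1 : ((n + m + 1 : ℕ) : ℝ) ≤ Real.exp ((m + 1) * n) := by
    have h2 := Real.add_one_le_exp (((m : ℝ) + 1) * n)
    refine le_trans ?_ h2
    push_cast
    have : (m : ℝ) * 1 ≤ m * n := by gcongr
    nlinarith
  have h2 : (2 : ℝ) ^ n ≤ Real.exp (1 * n) := by
    rw [one_mul, ← Real.exp_one_pow]
    gcongr
    have := Real.exp_one_gt_d9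
    linarith
  have h3 : (Nat.lcmUpto (q * n + m) : ℝ) ^ m ≤ Real.exp ((Real.log 4 + 4) * (q + m) * m * n) := by
    have hpos : (0 : ℝ) < (Nat.lcmUpto (q * n + m) : ℝ) := by exact_mod_cast Nat.lcmUpto_pos _
    have h4 := Chebyshev.psi_le_const_mul_self (x := ((q * n + m : ℕ) : ℝ)) (by positivity)
    rw [Chebyshev.psi_eq_log_lcmUpto] at h4
    have h5 : Real.log (Nat.lcmUpto (q * n + m) : ℝ) ≤ (Real.log 4 + 4) * ((q + m) * n) := by
      refine h4.trans ?_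
      have : (0 : ℝ) ≤ Real.log 4 + 4 := by
        have := Real.log_nonneg (by norm_num : (1 : ℝ) ≤ 4)
        linarith
      gcongr
    have h6 : (Nat.lcmUpto (q * n + m) : ℝ) ≤ Real.exp ((Real.log 4 + 4) * ((q + m) * n)) := by
      rw [← Real.exp_log hpos]
      exact Real.exp_le_exp.mpr h5
    calc (Nat.lcmUpto (q * n + m) : ℝ) ^ m
        ≤ (Real.exp ((Real.log 4 + 4) * ((q + m) * n))) ^ m := by gcongr
      _ = _ := by rw [← Real.exp_nat_mul]; congr 1; ring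
  have h7 : ((q * n + m : ℕ) : ℝ) ^ m ≤ Real.exp ((q + m) * m * n) := by
    have h8 : ((q * n + m : ℕ) : ℝ) ≤ Real.exp ((q + m) * n) := by
      refine hqn.trans ?_
      have := Real.add_one_le_exp (((q : ℝ) + m) * n)
      linarith
    calc ((q * n + m : ℕ) : ℝ) ^ m ≤ (Real.exp ((q + m) * n)) ^ m := by gcongr
      _ = _ := by rw [← Real.exp_nat_mul]; congr 1; ring
  calc ((n + m + 1 : ℕ) : ℝ) * (2 ^ n * (Nat.lcmUpto (q * n + m) : ℝ) ^ m * ((q * n + m : ℕ) : ℝ) ^ m)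
      ≤ Real.exp ((m + 1) * n) * (Real.exp (1 * n) *
        Real.exp ((Real.log 4 + 4) * (q + m) * m * n) * Real.exp ((q + m) * m * n)) := by
        gcongr
    _ = (cst q m) ^ n := by
        rw [cst, ← Real.exp_nat_mul, ← Real.exp_add, ← Real.exp_add, ← Real.exp_add]
        congr 1; ring

theorem gcd_bound {q m : ℕ} (hm : m < q) (e : ℕ → ℕ) {n : ℕ} (hn1 : 1 ≤ n)
    (hn : ∑ j ∈ range (m + 1), e j = n) {x y d : ℤ} (hx : 2 ≤ x) (hy1 : 1 ≤ y) (hd0 : 0 ≤ d)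
    (hd : d ∣ x) (hy : d ∣ y - 1) (hxy : y ^ q * (x - 1) = x ^ n - 1)
    {B : ℝ} (hB : ∀ j ≤ m, (x : ℝ) ^ (e j) * (y : ℝ) ^ j ≤ B) :
    (d : ℝ) ^ n ≤ (cst q m) ^ n * B := by
  classical
  obtain ⟨g, hg⟩ := weights hm e hn
  obtain ⟨i, him, hi⟩ := nonvanish hm e hn (fun v hv => (hg v hv).1) (x : ℚ) (y : ℚ)
    (by exact_mod_cast (by omega : x ≠ 0))
  have hdvd := dvd_N hm e hn (fun v hv => (hg v hv).1) hd hy hxy him
  set N : ℤ := ∑ v ∈ idx m e, g v * ((node q v) ^ i * ((1 - x) ^ v.2 * y ^ v.1)) with hN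
  have hN0 : N ≠ 0 := by
    intro h0
    apply hi
    have : ((N : ℤ) : ℚ) = 0 := by rw [h0]; simp
    rw [hN] at this
    push_cast at this
    exact this
  have h1 : d ^ n ≤ |N| := by
    have := Int.le_of_dvd (abs_pos.mpr hN0) ((dvd_abs _ _).mpr hdvd)
    exact this
  have hle : ∀ j ∈ range (m + 1), e j ≤ n := by
    intro j' hj'
    rw [← hn]
    exact single_le_sum (f := e) (fun i _ => Nat.zero_le _) hj'
  have hBnn : 0 ≤ B := by
    refine le_trans ?_ (hB 0 (Nat.zero_le _))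
    have : (0 : ℝ) ≤ x := by exact_mod_cast (by omega : (0 : ℤ) ≤ x)
    positivity
  have hxR : (2 : ℝ) ≤ x := by exact_mod_cast hx
  have hyR : (1 : ℝ) ≤ y := by exact_mod_cast hy1
  have h2 : (|N| : ℝ) ≤ ((n + m + 1 : ℕ) : ℝ) *
      (2 ^ n * (Nat.lcmUpto (q * n + m) : ℝ) ^ m * ((q * n + m : ℕ) : ℝ) ^ m * B) := by
    have h3 : |(N : ℝ)| ≤ ∑ v ∈ idx m e,
        |(g v : ℝ) * ((node q v : ℝ) ^ i * ((1 - x) ^ v.2 * y ^ v.1))| := by
      rw [hN]
      push_cast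
      exact abs_sum_le_sum_abs _ _
    have hcard : (idx m e).card = n + m + 1 := by rw [card_idx, hn]
    refine h3.trans ?_
    rw [← hcard, ← nsmul_eq_mul]
    refine sum_le_card_nsmul _ _ _ (fun v hv => ?_)
    obtain ⟨hj, hl⟩ := mem_idx.mp hv
    have hgv : |(g v : ℝ)| ≤ 2 ^ n * (Nat.lcmUpto (q * n + m) : ℝ) ^ m := by
      have := (hg v hv).2
      exact_mod_cast this
    have hnode : |(node q v : ℝ)| ^ i ≤ ((q * n + m : ℕ) : ℝ) ^ m := by
      have ha : |(node q v : ℝ)| ≤ ((q * n + m : ℕ) : ℝ) := by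
        have hln : v.2 ≤ n := hl.trans (hle v.1 (mem_range.mpr (by omega)))
        simp only [node]
        push_cast
        have h1 : (q : ℝ) * v.2 ≤ q * n := by gcongr
        have h5 : (v.1 : ℝ) ≤ m := by exact_mod_cast hj
        have h6 : (0 : ℝ) ≤ q * v.2 := by positivity
        have h7 : (0 : ℝ) ≤ v.1 := by positivity
        rw [abs_le]; constructor <;> nlinarith
      have hb : (1 : ℝ) ≤ ((q * n + m : ℕ) : ℝ) := by
        have : 1 ≤ q * n + m := by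
          have : 0 < q * n := Nat.mul_pos (by omega) (by omega)
          omega
        exact_mod_cast this
      calc |(node q v : ℝ)| ^ i ≤ ((q * n + m : ℕ) : ℝ) ^ i := by gcongr
        _ ≤ ((q * n + m : ℕ) : ℝ) ^ m := pow_le_pow_right₀ hb him
    have hlast : |(1 - (x : ℝ)) ^ v.2 * (y : ℝ) ^ v.1| ≤ B := by
      refine le_trans ?_ (hB v.1 hj)
      rw [abs_mul, abs_pow, abs_pow, abs_of_nonneg (by linarith : (0 : ℝ) ≤ (y : ℝ)),
        abs_of_nonpos (by linarith : (1 - (x : ℝ)) ≤ 0)]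
      have : (-(1 - (x : ℝ))) ^ v.2 ≤ (x : ℝ) ^ (e v.1) := by
        calc (-(1 - (x : ℝ))) ^ v.2 ≤ (x : ℝ) ^ v.2 :=
              pow_le_pow_left₀ (by linarith) (by linarith) _
          _ ≤ (x : ℝ) ^ (e v.1) := pow_le_pow_right₀ (by linarith) hl
      gcongr
    rw [abs_mul, abs_mul, abs_pow]
    calc |(g v : ℝ)| * (|(node q v : ℝ)| ^ i * |(1 - (x : ℝ)) ^ v.2 * (y : ℝ) ^ v.1|)
        ≤ (2 ^ n * (Nat.lcmUpto (q * n + m) : ℝ) ^ m) * (((q * n + m : ℕ) : ℝ) ^ m * B) := by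
          gcongr
      _ = _ := by ring
  have h4 : (d : ℝ) ^ n ≤ |(N : ℝ)| := by exact_mod_cast h1
  calc (d : ℝ) ^ n ≤ |(N : ℝ)| := h4
    _ ≤ _ := h2
    _ = (((n + m + 1 : ℕ) : ℝ) *
      (2 ^ n * (Nat.lcmUpto (q * n + m) : ℝ) ^ m * ((q * n + m : ℕ) : ℝ) ^ m)) * B := by ring
    _ ≤ (cst q m) ^ n * B := by
        gcongr
        exact factor_le hn1

/-- rounding -/
lemma rounding (m n : ℕ) (E : ℕ → ℝ) (hE : ∀ j ≤ m, 0 ≤ E j)
    (hs : ∑ j ∈ range (m + 1), E j = n) :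
    ∃ e : ℕ → ℕ, ∑ j ∈ range (m + 1), e j = n ∧ ∀ j ≤ m, (e j : ℝ) ≤ E j + 1 := by
  set F : ℕ → ℝ := fun j => if j ≤ m then E j else 0 with hF
  have hF0 : ∀ j, 0 ≤ F j := by
    intro j; simp only [hF]; split_ifs with h
    · exact hE j h
    · exact le_rfl
  set S : ℕ → ℝ := fun j => ∑ i ∈ range j, F i with hS
  have hSm : Monotone S := monotone_nat_of_le_succ (fun j => by
    simp only [hS]; rw [sum_range_succ]; linarith [hF0 j])
  have hfl : Monotone (fun j => ⌊S j⌋₊) := fun a b hab => Nat.floor_mono (hSm hab)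
  refine ⟨fun j => ⌊S (j + 1)⌋₊ - ⌊S j⌋₊, ?_, ?_⟩
  · rw [sum_range_tsub hfl]
    have h1 : S (m + 1) = n := by
      simp only [hS]
      rw [← hs]
      refine sum_congr rfl (fun i hi => ?_)
      simp only [hF]
      rw [if_pos (by have := mem_range.mp hi; omega)]
    have h0 : S 0 = 0 := by simp [hS]
    simp only [h1, h0, Nat.floor_natCast, Nat.floor_zero, Nat.sub_zero]
  · intro j hj
    have h1 : S (j + 1) = S j + E j := by
      simp only [hS]; rw [sum_range_succ]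
      simp only [hF]; rw [if_pos hj]
    have hle : ⌊S j⌋₊ ≤ ⌊S (j + 1)⌋₊ := hfl (Nat.le_succ j)
    have hSj : 0 ≤ S j := sum_nonneg (fun i _ => hF0 i)
    have hSj1 : 0 ≤ S (j + 1) := sum_nonneg (fun i _ => hF0 i)
    rw [Nat.cast_sub hle]
    have h2 := Nat.floor_le hSj1
    have h3 := Nat.lt_floor_add_one (S j)
    linarith

end Pool.Agent.H44.NL
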