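import Pool.Agent.H44.NL.Weights

/-! Non-vanishing and divisibility of `N_i = ∑ g_v t_v^i (1-x)^l y^j`. -/

namespace Pool.Agent.H44.NL
open Finset Polynomial

theorem nonvanish {q m : ℕ} (hm : m < q) (e : ℕ → ℕ) {n : ℕ}
    (hn : ∑ j ∈ range (m + 1), e j = n) {g : (_ : ℕ) × ℕ → ℤ}
    (hg : ∀ v ∈ idx m e,
      (g v : ℚ) = lam q m e n / ∏ w ∈ (idx m e).erase v, ((node q v : ℚ) - node q w))
    (x y : ℚ) (hx : x ≠ 0) :
    ∃ i ≤ m, ∑ v ∈ idx m e, (g v : ℚ) * ((node q v : ℚ) ^ i * ((1 - x) ^ v.2 * y ^ v.1)) ≠ 0 := by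
  classical
  by_contra hcon
  push Not at hcon
  have hq : 0 < q := by omega
  have hq' : (q : ℚ) ≠ 0 := by exact_mod_cast hq.ne'
  set s := idx m e with hs
  set r : (_ : ℕ) × ℕ → ℚ := fun v => (1 - x) ^ v.2 * y ^ v.1 with hr
  have hinj := node_injOn hm e
  set P := Lagrange.interpolate s (fun v => (node q v : ℚ)) r with hP
  have hcard : s.card = n + m + 1 := by rw [hs, card_idx, hn]
  have hPv : ∀ v ∈ s, P.eval (node q v : ℚ) = r v := fun v hv =>
    Lagrange.eval_interpolate_at_node r hinj hv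
  have hPdeg : P.degree < ((n + m + 1 : ℕ) : WithBot ℕ) := by
    rw [← hcard]; exact Lagrange.degree_interpolate_lt r hinj
  have h00 : (⟨0, 0⟩ : (_ : ℕ) × ℕ) ∈ s := by rw [hs, mem_idx]; simp
  have hP0 : P ≠ 0 := by
    intro h0
    have := hPv _ h00
    rw [h0] at this
    simp [hr] at this
  -- the degree is less than n
  have hdeg : P.natDegree < n := by
    by_contra hge
    push Not at hge
    have hlt : P.natDegree < n + m + 1 := (natDegree_lt_iff_degree_lt hP0).mpr hPdeg
    set i := n + m - P.natDegree with hi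
    have him : i ≤ m := by omega
    have hXP : (X ^ i * P).natDegree = n + m := by
      rw [natDegree_X_pow_mul _ hP0]; omega
    have hXP0 : X ^ i * P ≠ 0 := mul_ne_zero (pow_ne_zero _ X_ne_zero) hP0
    have hle : (X ^ i * P).degree ≤ ((n + m : ℕ) : WithBot ℕ) := by
      rw [degree_eq_natDegree hXP0, hXP]
    have h1 := moment_top hm e hn hg hle
    have h2 : ∑ v ∈ s, (g v : ℚ) * (X ^ i * P).eval (node q v : ℚ) = 0 := by
      rw [← hcon i him]
      refine sum_congr rfl (fun v hv => ?_)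
      rw [eval_mul, eval_pow, eval_X, hPv v hv]
    rw [h2] at h1
    have h3 : (X ^ i * P).coeff (n + m) = P.leadingCoeff := by
      have : n + m = P.natDegree + i := by omega
      rw [this, coeff_X_pow_mul]; rfl
    rw [h3] at h1
    exact mul_ne_zero (lam_ne_zero hq m e n) (leadingCoeff_ne_zero.mpr hP0) h1.symm
  -- the functional equation
  have hn0 : 0 < n := by omega
  set Q := P.comp (X + C (q : ℚ)) - C (1 - x) * P with hQ
  have hnd1 : (X + C (q : ℚ)).natDegree = 1 := natDegree_X_add_C _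
  have hQ0 : Q = 0 := by
    set t : Finset ((_ : ℕ) × ℕ) := (range (m + 1)).sigma (fun j => range (e j)) with ht
    have htcard : t.card = n := by rw [ht, card_sigma]; simpa using hn
    have hts : ∀ v ∈ t, v ∈ s := by
      intro v hv
      simp only [ht, mem_sigma, mem_range] at hv
      rw [hs, mem_idx]
      omega
    have hinj' : Set.InjOn (fun v => (node q v : ℚ)) (t : Set ((_ : ℕ) × ℕ)) :=
      hinj.mono (fun v hv => hts v hv)
    refine Polynomial.eq_zero_of_degree_lt_of_eval_index_eq_zero t hinj' ?_ ?_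
    · rw [htcard]
      refine (degree_sub_le _ _).trans_lt (max_lt ?_ ?_)
      · have hc : (P.comp (X + C (q : ℚ))).natDegree = P.natDegree := by
          rw [natDegree_comp, hnd1, mul_one]
        by_cases h0 : P.comp (X + C (q : ℚ)) = 0
        · rw [h0, degree_zero]; exact WithBot.bot_lt_coe _
        · rw [← natDegree_lt_iff_degree_lt h0, hc]; exact hdeg
      · by_cases h0 : C (1 - x) * P = 0
        · rw [h0, degree_zero]; exact WithBot.bot_lt_coe _
        · rw [← natDegree_lt_iff_degree_lt h0]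
          exact (natDegree_C_mul_le _ _).trans_lt hdeg
    · rintro ⟨j, l⟩ hv
      have hvs := hts _ hv
      simp only [ht, mem_sigma, mem_range] at hv
      have hv2 : (⟨j, l + 1⟩ : (_ : ℕ) × ℕ) ∈ s := by
        rw [hs, mem_idx]
        simp only
        omega
      have e1 : (node q ⟨j, l⟩ : ℚ) + q = (node q ⟨j, l + 1⟩ : ℚ) := by
        simp only [node]; push_cast; ring
      rw [hQ, eval_sub, eval_comp, eval_add, eval_X, eval_C, e1, eval_mul, eval_C,
        hPv _ hv2, hPv _ hvs]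
      simp only [hr]
      ring
  have hcomp : P.comp (X + C (q : ℚ)) = C (1 - x) * P := sub_eq_zero.mp hQ0
  have hlc := congrArg leadingCoeff hcomp
  rw [leadingCoeff_comp (by rw [hnd1]; norm_num), leadingCoeff_X_add_C, one_pow, mul_one,
    leadingCoeff_mul, leadingCoeff_C] at hlc
  have hne := leadingCoeff_ne_zero.mpr hP0
  have : (1 - x : ℚ) = 1 := by
    have := mul_right_cancel₀ hne (show (1 : ℚ) * P.leadingCoeff = (1 - x) * P.leadingCoeff by
      rw [one_mul]; exact hlc)
    exact this.symm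
  exact hx (by linarith)

lemma pow_trunc {R : Type*} [CommRing R] (z : R) (n E : ℕ) :
    z ^ n ∣ (1 + z) ^ E - ∑ c ∈ range n, (E.choose c : R) * z ^ c := by
  have h1 : (1 + z) ^ E = ∑ c ∈ range (n + (E + 1)), (E.choose c : R) * z ^ c := by
    rw [add_comm 1 z, add_pow, add_comm n (E + 1),
      sum_range_add (fun c => (E.choose c : R) * z ^ c) (E + 1) n]
    have h2 : ∑ c ∈ range n, (E.choose (E + 1 + c) : R) * z ^ (E + 1 + c) = 0 := by
      refine sum_eq_zero (fun c _ => ?_)
      rw [Nat.choose_eq_zero_of_lt (by omega)]; simp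
    rw [h2, add_zero]
    refine sum_congr rfl (fun c _ => ?_)
    rw [one_pow, mul_one, mul_comm]
  rw [h1, sum_range_add, add_sub_cancel_left]
  refine dvd_sum (fun c _ => ?_)
  rw [pow_add]
  exact ⟨(E.choose (n + c) : R) * z ^ c, by ring⟩

theorem moment_choose {q m : ℕ} (hm : m < q) (e : ℕ → ℕ) {n : ℕ}
    (hn : ∑ j ∈ range (m + 1), e j = n) {g : (_ : ℕ) × ℕ → ℤ}
    (hg : ∀ v ∈ idx m e,
      (g v : ℚ) = lam q m e n / ∏ w ∈ (idx m e).erase v, ((node q v : ℚ) - node q w))
    {i c : ℕ} (hi : i ≤ m) (hc : c < n) :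
    ∑ v ∈ idx m e, g v * ((node q v) ^ i * ((q * (n - v.2) + v.1).choose c : ℤ)) = 0 := by
  have hle : ∀ v ∈ idx m e, v.2 ≤ n := by
    intro v hv
    obtain ⟨h1, h2⟩ := mem_idx.mp hv
    refine h2.trans ?_
    rw [← hn]
    exact single_le_sum (f := e) (fun i _ => Nat.zero_le _) (mem_range.mpr (by omega))
  set P : ℚ[X] := X ^ i * (C ((c.factorial : ℚ)⁻¹) *
    (descPochhammer ℚ c).comp (C ((q : ℚ) * n) - X)) with hP
  have hdeg : P.degree < ((n + m : ℕ) : WithBot ℕ) := by
    refine lt_of_le_of_lt (degree_le_natDegree) ?_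
    have h1 : P.natDegree ≤ i + c := by
      refine natDegree_mul_le.trans (add_le_add (natDegree_X_pow_le i) ?_)
      refine (natDegree_C_mul_le _ _).trans ?_
      rw [natDegree_comp, descPochhammer_natDegree]
      have : (C ((q : ℚ) * n) - X : ℚ[X]).natDegree ≤ 1 :=
        (natDegree_sub_le _ _).trans (max_le (by rw [natDegree_C]; exact Nat.zero_le _) natDegree_X_le)
      calc c * (C ((q : ℚ) * n) - X : ℚ[X]).natDegree ≤ c * 1 := by gcongr
        _ = c := mul_one c
    exact_mod_cast (by omega : P.natDegree < n + m)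
  have h := moment_zero hm e hn hg hdeg
  have h2 : ((∑ v ∈ idx m e, g v * ((node q v) ^ i * ((q * (n - v.2) + v.1).choose c : ℤ)) : ℤ) : ℚ)
      = 0 := by
    rw [← h]
    push_cast
    refine sum_congr rfl (fun v hv => ?_)
    congr 1
    rw [hP, eval_mul, eval_pow, eval_X, eval_mul, eval_C, eval_comp, eval_sub, eval_C, eval_X]
    congr 1
    have e1 : (q : ℚ) * n - (node q v : ℚ) = ((q * (n - v.2) + v.1 : ℕ) : ℚ) := by
      simp only [node]
      push_cast [Nat.cast_sub (hle v hv)]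
      ring
    rw [e1, descPochhammer_eval_eq_descFactorial, Nat.descFactorial_eq_factorial_mul_choose]
    push_cast
    have : (c.factorial : ℚ) ≠ 0 := by positivity
    field_simp
  exact_mod_cast h2

theorem dvd_N {q m : ℕ} (hm : m < q) (e : ℕ → ℕ) {n : ℕ}
    (hn : ∑ j ∈ range (m + 1), e j = n) {g : (_ : ℕ) × ℕ → ℤ}
    (hg : ∀ v ∈ idx m e,
      (g v : ℚ) = lam q m e n / ∏ w ∈ (idx m e).erase v, ((node q v : ℚ) - node q w))
    {x y d : ℤ} (hd : d ∣ x) (hy : d ∣ y - 1) (hxy : y ^ q * (x - 1) = x ^ n - 1)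
    {i : ℕ} (hi : i ≤ m) :
    d ^ n ∣ ∑ v ∈ idx m e, g v * ((node q v) ^ i * ((1 - x) ^ v.2 * y ^ v.1)) := by
  have hle : ∀ v ∈ idx m e, v.2 ≤ n := by
    intro v hv
    obtain ⟨h1, h2⟩ := mem_idx.mp hv
    refine h2.trans ?_
    rw [← hn]
    exact single_le_sum (f := e) (fun i _ => Nat.zero_le _) (mem_range.mpr (by omega))
  obtain ⟨k, hk⟩ := hy
  have hyk : y = 1 + d * k := by linarith
  have hcop : IsCoprime (d ^ n) (y ^ (q * n)) := by
    refine IsCoprime.pow ?_
    rw [hyk]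
    exact ⟨-k, 1, by ring⟩
  have hxn : d ^ n ∣ x ^ n := pow_dvd_pow_of_dvd hd n
  -- (1-x) y^q ≡ 1
  have hunit : d ^ n ∣ (1 - x) * y ^ q - 1 := by
    have : (1 - x) * y ^ q - 1 = - x ^ n := by linear_combination -hxy
    rw [this]; exact (dvd_neg.mpr hxn)
  refine hcop.dvd_of_dvd_mul_left ?_
  rw [mul_sum]
  -- termwise congruence
  have hterm : ∀ v ∈ idx m e, d ^ n ∣
      y ^ (q * n) * (g v * ((node q v) ^ i * ((1 - x) ^ v.2 * y ^ v.1)))
      - g v * ((node q v) ^ i * ∑ c ∈ range n, ((q * (n - v.2) + v.1).choose c : ℤ) * (d * k) ^ c) := by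
    intro v hv
    have h1 : d ^ n ∣ (y ^ (q * n) * ((1 - x) ^ v.2 * y ^ v.1)) - y ^ (q * (n - v.2) + v.1) := by
      have e1 : y ^ (q * n) = (y ^ q) ^ v.2 * y ^ (q * (n - v.2)) := by
        rw [← pow_mul, ← pow_add]
        congr 1
        have := hle v hv
        rw [← mul_add]; congr 1; omega
      have e2 : (y ^ (q * n) * ((1 - x) ^ v.2 * y ^ v.1)) - y ^ (q * (n - v.2) + v.1)
          = (((1 - x) * y ^ q) ^ v.2 - 1 ^ v.2) * y ^ (q * (n - v.2) + v.1) := by
        rw [e1, pow_add, mul_pow, one_pow]; ring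
      rw [e2]
      exact Dvd.dvd.mul_right (hunit.trans (sub_dvd_pow_sub_pow _ _ _)) _
    have h2 : d ^ n ∣ y ^ (q * (n - v.2) + v.1)
        - ∑ c ∈ range n, ((q * (n - v.2) + v.1).choose c : ℤ) * (d * k) ^ c := by
      have := pow_trunc (d * k) n (q * (n - v.2) + v.1)
      rw [← hyk] at this
      refine dvd_trans ?_ this
      rw [mul_pow]; exact dvd_mul_right _ _
    have h3 := dvd_add h1 h2
    have h4 : y ^ (q * n) * (g v * ((node q v) ^ i * ((1 - x) ^ v.2 * y ^ v.1)))
      - g v * ((node q v) ^ i * ∑ c ∈ range n, ((q * (n - v.2) + v.1).choose c : ℤ) * (d * k) ^ c)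
      = (g v * (node q v) ^ i) * (((y ^ (q * n) * ((1 - x) ^ v.2 * y ^ v.1)) - y ^ (q * (n - v.2) + v.1))
        + (y ^ (q * (n - v.2) + v.1)
        - ∑ c ∈ range n, ((q * (n - v.2) + v.1).choose c : ℤ) * (d * k) ^ c)) := by ring
    rw [h4]
    exact Dvd.dvd.mul_left h3 _
  have hzero : ∑ v ∈ idx m e, g v * ((node q v) ^ i *
      ∑ c ∈ range n, ((q * (n - v.2) + v.1).choose c : ℤ) * (d * k) ^ c) = 0 := by
    have : ∀ v ∈ idx m e, g v * ((node q v) ^ i *
        ∑ c ∈ range n, ((q * (n - v.2) + v.1).choose c : ℤ) * (d * k) ^ c)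
        = ∑ c ∈ range n, (d * k) ^ c *
          (g v * ((node q v) ^ i * ((q * (n - v.2) + v.1).choose c : ℤ))) := by
      intro v _
      rw [mul_sum, mul_sum]
      refine sum_congr rfl (fun c _ => ?_)
      ring
    rw [sum_congr rfl this, sum_comm]
    refine sum_eq_zero (fun c hc => ?_)
    rw [← mul_sum, moment_choose hm e hn hg hi (mem_range.mp hc), mul_zero]
  have h5 := dvd_sum hterm
  rw [sum_sub_distrib, hzero, sub_zero] at h5
  exact h5

end Pool.Agent.H44.NL
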