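import Pool.Agent.H44.NL.Bound

/-! Optimised exponents and the part of `x` free of primes `p` with `gcd(p-1,k) > 1`. -/

namespace Pool.Agent.H44.NL
open Finset Polynomial

/-- the optimised bound for common divisors of `x` and `y-1` -/
theorem gcd_final {k m : ℕ} (hm : m < k) (hmk : m * (m + 1) ≤ 2 * k) {n : ℕ} (hn1 : 1 ≤ n)
    {x y d : ℤ} (hx : 2 ≤ x) (hy1 : 1 ≤ y) (hd0 : 0 ≤ d)
    (hd : d ∣ x) (hy : d ∣ y - 1) (hxy : y ^ k * (x - 1) = x ^ n - 1) :
    (d : ℝ) ≤ 2 * cst k m * (x : ℝ) ^ ((1 : ℝ) / (m + 1) + m / (2 * k) + 1 / n) := by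
  have hk0 : 0 < k := by omega
  have hkR : (0 : ℝ) < k := by exact_mod_cast hk0
  have hnR : (1 : ℝ) ≤ n := by exact_mod_cast hn1
  have hmR : (0 : ℝ) ≤ m := by positivity
  have hm1 : (0 : ℝ) < (m : ℝ) + 1 := by positivity
  have hxR : (2 : ℝ) ≤ x := by exact_mod_cast hx
  have hx0 : (0 : ℝ) < x := by linarith
  have hyR : (1 : ℝ) ≤ y := by exact_mod_cast hy1
  set τ : ℝ := n / (m + 1) + m * (n - 1) / (2 * k) with hτ
  set E : ℕ → ℝ := fun j => τ - j * (n - 1) / k with hE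
  have hE0 : ∀ j ≤ m, 0 ≤ E j := by
    intro j hj
    have hjR : (j : ℝ) ≤ m := by exact_mod_cast hj
    simp only [hE, hτ]
    have h1 : (j : ℝ) * (n - 1) / k ≤ m * (n - 1) / k := by
      have : (0 : ℝ) ≤ n - 1 := by linarith
      gcongr
    have h2 : (m : ℝ) * (n - 1) / (2 * k) ≤ n / (m + 1) := by
      rw [div_le_div_iff₀ (by positivity) hm1]
      have h3 : (m : ℝ) * (m + 1) ≤ 2 * k := by exact_mod_cast hmk
      have h4 : (m : ℝ) * (m + 1) * (n - 1) ≤ 2 * k * (n - 1) := by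
        have : (0 : ℝ) ≤ n - 1 := by linarith
        gcongr
      nlinarith
    have h3 : (m : ℝ) * (n - 1) / k = 2 * (m * (n - 1) / (2 * k)) := by field_simp
    linarith
  have hEs : ∑ j ∈ range (m + 1), E j = n := by
    simp only [hE]
    rw [sum_sub_distrib, sum_const, card_range, nsmul_eq_mul]
    have h1 : ∑ j ∈ range (m + 1), (j : ℝ) * (n - 1) / k = (m * (m + 1) / 2) * (n - 1) / k := by
      rw [← sum_div, ← sum_mul]
      congr 2
      have := Finset.sum_range_id_mul_two (m + 1)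
      have h2 : ((∑ i ∈ range (m + 1), i : ℕ) : ℝ) * 2 = (m + 1) * m := by
        exact_mod_cast this
      push_cast at h2
      linarith
    rw [h1, hτ]
    push_cast
    field_simp
    ring
  obtain ⟨e, hes, hee⟩ := rounding m n E hE0 hEs
  have hyk : (y : ℝ) ^ k ≤ 2 * (x : ℝ) ^ ((n : ℝ) - 1) := by
    have h1 : (y : ℝ) ^ k * (x - 1) = x ^ n - 1 := by exact_mod_cast hxy
    have h2 : (x : ℝ) ^ ((n : ℝ) - 1) = x ^ n / x := by
      rw [Real.rpow_sub_one hx0.ne', Real.rpow_natCast]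
    rw [h2]
    have h3 : (x : ℝ) / 2 ≤ x - 1 := by linarith
    have h4 : (y : ℝ) ^ k * (x / 2) ≤ x ^ n := by
      calc (y : ℝ) ^ k * (x / 2) ≤ (y : ℝ) ^ k * (x - 1) := by gcongr
        _ ≤ x ^ n := by rw [h1]; linarith
    rw [← mul_div_assoc, le_div_iff₀ hx0]
    linarith
  have hB : ∀ j ≤ m, (x : ℝ) ^ (e j) * (y : ℝ) ^ j ≤ 2 * (x : ℝ) ^ (τ + 1) := by
    intro j hj
    have hjk : (j : ℝ) / k ≤ 1 := by
      rw [div_le_one hkR]; exact_mod_cast (by omega : j ≤ k)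
    have h1 : (x : ℝ) ^ (e j) ≤ (x : ℝ) ^ (E j + 1) := by
      rw [← Real.rpow_natCast]
      exact Real.rpow_le_rpow_of_exponent_le (by linarith) (hee j hj)
    have h2 : (y : ℝ) ^ j ≤ 2 * (x : ℝ) ^ ((j : ℝ) * (n - 1) / k) := by
      have h3 : (y : ℝ) ^ j = ((y : ℝ) ^ k) ^ ((j : ℝ) / k) := by
        rw [← Real.rpow_natCast y k, ← Real.rpow_mul (by linarith), mul_div_cancel₀ _ hkR.ne',
          Real.rpow_natCast]
      rw [h3]
      calc ((y : ℝ) ^ k) ^ ((j : ℝ) / k) ≤ (2 * (x : ℝ) ^ ((n : ℝ) - 1)) ^ ((j : ℝ) / k) := by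
            gcongr
        _ = 2 ^ ((j : ℝ) / k) * (x : ℝ) ^ ((j : ℝ) * (n - 1) / k) := by
            rw [Real.mul_rpow (by norm_num) (by positivity), ← Real.rpow_mul hx0.le]
            congr 2; ring
        _ ≤ 2 ^ (1 : ℝ) * (x : ℝ) ^ ((j : ℝ) * (n - 1) / k) := by
            refine mul_le_mul_of_nonneg_right ?_ (by positivity)
            exact Real.rpow_le_rpow_of_exponent_le (by norm_num) hjk
        _ = _ := by rw [Real.rpow_one]
    calc (x : ℝ) ^ (e j) * (y : ℝ) ^ j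
        ≤ (x : ℝ) ^ (E j + 1) * (2 * (x : ℝ) ^ ((j : ℝ) * (n - 1) / k)) := by gcongr
      _ = 2 * ((x : ℝ) ^ (E j + 1) * (x : ℝ) ^ ((j : ℝ) * (n - 1) / k)) := by ring
      _ = 2 * (x : ℝ) ^ (τ + 1) := by
          rw [← Real.rpow_add hx0]
          congr 2
          simp only [hE]; ring
  have hmain := gcd_bound hm e hn1 hes hx hy1 hd0 hd hy hxy hB
  have hc0 : 0 < cst k m := Real.exp_pos _
  have hdR : (0 : ℝ) ≤ d := by exact_mod_cast hd0
  -- take n-th roots
  have h5 : (d : ℝ) ^ n ≤ (2 * cst k m * (x : ℝ) ^ ((1 : ℝ) / (m + 1) + m / (2 * k) + 1 / n)) ^ n := by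
    refine hmain.trans ?_
    rw [mul_pow, mul_pow, ← Real.rpow_natCast ((x : ℝ) ^ _) n, ← Real.rpow_mul hx0.le]
    have h6 : (2 : ℝ) ≤ 2 ^ n := by
      calc (2 : ℝ) = 2 ^ 1 := (pow_one 2).symm
        _ ≤ 2 ^ n := pow_le_pow_right₀ (by norm_num) hn1
    have h7 : (x : ℝ) ^ (τ + 1) ≤
        (x : ℝ) ^ (((1 : ℝ) / (m + 1) + m / (2 * k) + 1 / n) * n) := by
      refine Real.rpow_le_rpow_of_exponent_le (by linarith) ?_
      have h8 : ((1 : ℝ) / (m + 1) + m / (2 * k) + 1 / n) * n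
          = n / (m + 1) + m * n / (2 * k) + 1 := by
        field_simp
      rw [h8, hτ]
      have : (m : ℝ) * (n - 1) / (2 * k) ≤ m * n / (2 * k) := by
        gcongr
        linarith
      linarith
    calc cst k m ^ n * (2 * (x : ℝ) ^ (τ + 1))
        ≤ cst k m ^ n * (2 ^ n * (x : ℝ) ^ (((1 : ℝ) / (m + 1) + m / (2 * k) + 1 / n) * n)) := by
          gcongr
      _ = _ := by ring
  exact le_of_pow_le_pow_left₀ (by omega) (by positivity) h5

/-- all prime factors of `d` divide `y - 1`, `d ∣ y^k - 1`, `k` odd: then `d ∣ k (y-1)`. -/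
theorem dvd_mul_of_primes {k y d : ℕ} (hk : Odd k) (hy : 1 < y) (hd : d ∣ y ^ k - 1)
    (hp : ∀ p : ℕ, p.Prime → p ∣ d → p ∣ y - 1) : d ∣ k * (y - 1) := by
  have hk0 : k ≠ 0 := by rintro rfl; simp at hk
  have hyk : y ^ k - 1 ≠ 0 := by
    have := Nat.one_lt_pow hk0 hy; omega
  have hd0 : d ≠ 0 := by rintro rfl; exact hyk (zero_dvd_iff.mp hd)
  have hky : k * (y - 1) ≠ 0 := mul_ne_zero hk0 (by omega)
  rw [← Nat.factorization_prime_le_iff_dvd hd0 hky]
  intro p hpp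
  by_cases hpd : p ∣ d
  · have : Fact p.Prime := ⟨hpp⟩
    have hpy := hp p hpp hpd
    have hpy' : ¬ p ∣ y := by
      intro h
      have h2 := (Nat.dvd_sub h hpy)
      have : y - (y - 1) = 1 := by omega
      rw [this] at h2
      exact hpp.one_lt.ne' (Nat.dvd_one.mp h2)
    have h1 : d.factorization p ≤ (y ^ k - 1).factorization p :=
      (Nat.factorization_le_iff_dvd hd0 hyk).mpr hd p
    refine h1.trans ?_
    rw [Nat.factorization_mul hk0 (by omega)]
    simp only [Finsupp.coe_add, Pi.add_apply]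
    rcases hpp.eq_two_or_odd' with rfl | hodd
    · -- p = 2
      have hgeom : (y ^ k - 1) = (∑ i ∈ range k, y ^ i) * (y - 1) := by
        have := Nat.geomSum_eq (by omega : 2 ≤ y) k
        rw [this, Nat.div_mul_cancel]
        simpa using Nat.sub_dvd_pow_sub_pow y 1 k
      have hodd1 : Odd (∑ i ∈ range k, y ^ i) := by
        have hyodd : Odd y := by
          rw [← Nat.not_even_iff_odd, even_iff_two_dvd]; exact hpy'
        rw [Finset.odd_sum_iff_odd_card_odd]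
        have : (range k).filter (fun i => Odd (y ^ i)) = range k := by
          rw [filter_true_of_mem]
          intro i _; exact hyodd.pow
        rw [this, card_range]; exact hk
      have hne : (∑ i ∈ range k, y ^ i) ≠ 0 := by rintro h; rw [h] at hodd1; simp at hodd1
      rw [hgeom, Nat.factorization_mul hne (by omega)]
      simp only [Finsupp.coe_add, Pi.add_apply]
      have : (∑ i ∈ range k, y ^ i).factorization 2 = 0 := by
        rw [Nat.factorization_eq_zero_iff]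
        right; left
        intro h2
        exact (Nat.not_even_iff_odd.mpr hodd1) (even_iff_two_dvd.mpr h2)
      omega
    · have h2 := padicValNat.pow_sub_pow (p := p) (x := y) (y := 1) hodd hy (by simpa using hpy) hpy' hk0
      rw [one_pow] at h2
      rw [Nat.factorization_def _ hpp, Nat.factorization_def _ hpp, Nat.factorization_def _ hpp, h2]
      omega
  · rw [Nat.factorization_eq_zero_of_not_dvd hpd]
    exact Nat.zero_le _

theorem main {k m : ℕ} (hk : Odd k) (hm : m < k) (hmk : m * (m + 1) ≤ 2 * k) {n : ℕ} (hn : 2 < n)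
    {x y d : ℕ} (hx : 1 < x) (hy : 1 < y) (hxy : y ^ k * (x - 1) = x ^ n - 1) (hd : d ∣ x)
    (hp : ∀ p : ℕ, p.Prime → p ∣ d → Nat.Coprime (p - 1) k ∨ p ∣ y - 1) :
    (d : ℝ) ≤ (k * (2 * cst k m)) * (x : ℝ) ^ ((1 : ℝ) / (m + 1) + m / (2 * k) + 1 / n) := by
  have hk0 : k ≠ 0 := by rintro rfl; simp at hk
  have hx1 : 1 ≤ x ^ n := Nat.one_le_pow _ _ (by omega)
  have hxyZ : (y : ℤ) ^ k * ((x : ℤ) - 1) = (x : ℤ) ^ n - 1 := by
    have := congrArg (Nat.cast : ℕ → ℤ) hxy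
    push_cast [Nat.cast_sub (by omega : 1 ≤ x), Nat.cast_sub hx1] at this
    exact this
  -- x ∣ y^k - 1
  have hxdvd : x ∣ y ^ k - 1 := by
    have h1 : (x : ℤ) ∣ (y : ℤ) ^ k - 1 := by
      refine ⟨(y : ℤ) ^ k - (x : ℤ) ^ (n - 1), ?_⟩
      have : (x : ℤ) ^ n = x * (x : ℤ) ^ (n - 1) := by
        rw [← pow_succ']; congr 1; omega
      rw [this] at hxyZ
      linear_combination -hxyZ
    have h2 : 1 ≤ y ^ k := Nat.one_le_pow _ _ (by omega)
    have h3 : ((y ^ k - 1 : ℕ) : ℤ) = (y : ℤ) ^ k - 1 := by push_cast [Nat.cast_sub h2]; ring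
    rw [← h3] at h1
    exact_mod_cast h1
  have hdy : d ∣ y ^ k - 1 := hd.trans hxdvd
  have hpr : ∀ p : ℕ, p.Prime → p ∣ d → p ∣ y - 1 := by
    intro p hpp hpd
    rcases hp p hpp hpd with h | h
    · have : Fact p.Prime := ⟨hpp⟩
      have h1 : p ∣ y ^ k - 1 := hpd.trans hdy
      have h2 : ((y : ZMod p)) ^ k = 1 := by
        have h3 : ((y ^ k - 1 : ℕ) : ZMod p) = 0 := (ZMod.natCast_eq_zero_iff _ _).mpr h1
        rw [Nat.cast_sub (Nat.one_le_pow _ _ (by omega))] at h3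
        push_cast at h3
        exact sub_eq_zero.mp h3
      have hy0 : (y : ZMod p) ≠ 0 := by
        intro h0; rw [h0, zero_pow hk0] at h2; exact zero_ne_one h2
      have h3 := ZMod.pow_card_sub_one_eq_one hy0
      have h4 : orderOf (y : ZMod p) ∣ 1 := by
        rw [← Nat.coprime_iff_gcd_eq_one.mp h]
        exact Nat.dvd_gcd (orderOf_dvd_of_pow_eq_one h3) (orderOf_dvd_of_pow_eq_one h2)
      have h5 : (y : ZMod p) = 1 := orderOf_eq_one_iff.mp (Nat.dvd_one.mp h4)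
      have h6 : ((y - 1 : ℕ) : ZMod p) = 0 := by
        rw [Nat.cast_sub (by omega), h5]; simp
      exact (ZMod.natCast_eq_zero_iff _ _).mp h6
    · exact h
  have hdk : d ∣ k * (y - 1) := dvd_mul_of_primes hk hy hdy hpr
  set D := Nat.gcd d (y - 1) with hD
  have hdD : d ∣ k * D := by
    have h1 : d ∣ Nat.gcd (k * d) (k * (y - 1)) := Nat.dvd_gcd (Dvd.intro_left k rfl) hdk
    rwa [Nat.gcd_mul_left] at h1
  have hD0 : 0 < D := Nat.gcd_pos_of_pos_right _ (by omega)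
  have hle : d ≤ k * D := Nat.le_of_dvd (Nat.mul_pos (by omega) hD0) hdD
  have hDx : (D : ℤ) ∣ (x : ℤ) := by exact_mod_cast (Nat.gcd_dvd_left _ _).trans hd
  have hDy : (D : ℤ) ∣ (y : ℤ) - 1 := by
    have h1 : (D : ℤ) ∣ ((y - 1 : ℕ) : ℤ) := by exact_mod_cast Nat.gcd_dvd_right d (y - 1)
    rwa [Nat.cast_sub (by omega)] at h1
  have h := gcd_final hm hmk (by omega : 1 ≤ n) (x := (x : ℤ)) (y := (y : ℤ)) (d := (D : ℤ))
    (by omega) (by omega) (by omega) hDx hDy hxyZ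
  have hle' : (d : ℝ) ≤ k * D := by exact_mod_cast hle
  calc (d : ℝ) ≤ k * D := hle'
    _ ≤ k * (2 * cst k m * (x : ℝ) ^ ((1 : ℝ) / (m + 1) + m / (2 * k) + 1 / n)) := by
        have hk' : (0 : ℝ) ≤ k := by positivity
        refine mul_le_mul_of_nonneg_left ?_ hk'
        simpa using h
    _ = _ := by ring

end Pool.Agent.H44.NL
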