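import Mathlib

/-! Nodes `t = q l - j` (`0 ≤ j ≤ m`, `0 ≤ l ≤ e j`) and the integral divided difference weights. -/

namespace Pool.Agent.H44.NL
open Finset Polynomial

/-- index set of the nodes -/
def idx (m : ℕ) (e : ℕ → ℕ) : Finset ((_ : ℕ) × ℕ) :=
  (range (m + 1)).sigma (fun j => range (e j + 1))

/-- the node `q l - j` -/
def node (q : ℕ) (v : (_ : ℕ) × ℕ) : ℤ := (q : ℤ) * v.2 - v.1

lemma mem_idx {m : ℕ} {e : ℕ → ℕ} {v : (_ : ℕ) × ℕ} :
    v ∈ idx m e ↔ v.1 ≤ m ∧ v.2 ≤ e v.1 := by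
  simp [idx]

lemma card_idx (m : ℕ) (e : ℕ → ℕ) :
    (idx m e).card = (∑ j ∈ range (m + 1), e j) + m + 1 := by
  simp [idx, card_sigma, sum_add_distrib]
  ring

lemma node_inj {q m : ℕ} (hm : m < q) {v w : (_ : ℕ) × ℕ} (hv : v.1 ≤ m) (hw : w.1 ≤ m)
    (h : node q v = node q w) : v = w := by
  obtain ⟨j, l⟩ := v
  obtain ⟨j', l'⟩ := w
  simp only [node] at h hv hw
  have hq : (0 : ℤ) < q := by exact_mod_cast (by omega : 0 < q)
  have h1 : (q : ℤ) * ((l : ℤ) - l') = (j : ℤ) - j' := by linarith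
  have h2 : (l : ℤ) - l' = 0 := by
    by_contra hne
    have h3 : (1 : ℤ) ≤ |(l : ℤ) - l'| := Int.one_le_abs hne
    have h4 : |(j : ℤ) - j'| = q * |(l : ℤ) - l'| := by
      rw [← h1, abs_mul, abs_of_pos hq]
    have h5 : |(j : ℤ) - j'| ≤ m := by
      rw [abs_le]; constructor <;> omega
    have h6 : (q : ℤ) * 1 ≤ q * |(l : ℤ) - l'| := by gcongr
    have h7 : (m : ℤ) < q := by exact_mod_cast hm
    linarith
  have h3 : (j : ℤ) = j' := by rw [h2] at h1; linarith
  have h4 : l = l' := by omega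
  have h5 : j = j' := by omega
  subst h4; subst h5; rfl

lemma node_injOn {q m : ℕ} (hm : m < q) (e : ℕ → ℕ) :
    Set.InjOn (fun v => (node q v : ℚ)) (idx m e : Set ((_ : ℕ) × ℕ)) := by
  intro v hv w hw h
  have hv' := (mem_idx.mp (mem_coe.mp hv)).1
  have hw' := (mem_idx.mp (mem_coe.mp hw)).1
  have h' : (node q v : ℚ) = (node q w : ℚ) := h
  exact node_inj hm hv' hw' (by exact_mod_cast h')

/-- partial fractions: `k! q^k L / ∏ (a - q i)` is an integer, bounded by `2^k L`. -/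
lemma block (q L : ℕ) : ∀ (k : ℕ) (a : ℤ),
    (∀ i ∈ range (k + 1), a - q * i ≠ 0 ∧ (a - q * i) ∣ (L : ℤ)) →
    ∃ g : ℤ, (g : ℚ) = (k.factorial : ℚ) * q ^ k * L / ∏ i ∈ range (k + 1), ((a : ℚ) - q * i) ∧
      |g| ≤ 2 ^ k * L := by
  intro k
  induction k with
  | zero =>
    intro a h
    obtain ⟨h0, c, hc⟩ := h 0 (by simp)
    simp only [Nat.cast_zero, mul_zero, sub_zero] at h0 hc
    refine ⟨c, ?_, ?_⟩
    · have ha : (a : ℚ) ≠ 0 := by exact_mod_cast h0
      simp
      field_simp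
      exact_mod_cast (by rw [hc]; ring : c * a = (L : ℤ))
    · have h1 : |(L : ℤ)| = |a| * |c| := by rw [hc, abs_mul]
      have h2 : 1 ≤ |a| := Int.one_le_abs h0
      have h3 : |(L : ℤ)| = L := abs_of_nonneg (by positivity)
      nlinarith [abs_nonneg c]
  | succ k ih =>
    intro a h
    obtain ⟨g1, hg1, hb1⟩ := ih a (fun i hi => h i (by simp at hi ⊢; omega))
    obtain ⟨g2, hg2, hb2⟩ := ih (a - q) (fun i hi => by
      have := h (i + 1) (by simp at hi ⊢; omega)
      push_cast at this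
      have e1 : a - q - q * i = a - q * (i + 1) := by ring
      rw [e1]; exact this)
    refine ⟨g2 - g1, ?_, ?_⟩
    · push_cast
      rw [hg1, hg2]
      have hP0 : ∀ i ∈ range (k + 2), ((a : ℚ) - q * i) ≠ 0 := by
        intro i hi
        have := (h i hi).1
        exact_mod_cast this
      have e1 : ∏ i ∈ range (k + 1), (((a - q : ℤ) : ℚ) - q * i)
          = ∏ i ∈ range (k + 1), ((a : ℚ) - q * ((i + 1 : ℕ) : ℚ)) := by
        refine prod_congr rfl (fun i _ => ?_)
        push_cast; ring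
      rw [e1]
      have e2 : ∏ i ∈ range (k + 2), ((a : ℚ) - q * i)
          = (∏ i ∈ range (k + 1), ((a : ℚ) - q * ((i + 1 : ℕ) : ℚ))) * ((a : ℚ) - q * (0 : ℕ)) :=
        prod_range_succ' _ _
      have e3 : ∏ i ∈ range (k + 2), ((a : ℚ) - q * i)
          = (∏ i ∈ range (k + 1), ((a : ℚ) - q * i)) * ((a : ℚ) - q * ((k + 1 : ℕ) : ℚ)) :=
        prod_range_succ _ _
      set P := ∏ i ∈ range (k + 2), ((a : ℚ) - q * i) with hP
      set P1 := ∏ i ∈ range (k + 1), ((a : ℚ) - q * i) with hP1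
      set P2 := ∏ i ∈ range (k + 1), ((a : ℚ) - q * ((i + 1 : ℕ) : ℚ)) with hP2
      have hPne : P ≠ 0 := prod_ne_zero_iff.mpr hP0
      have hu : ((a : ℚ) - q * (0 : ℕ)) ≠ 0 := hP0 0 (by simp)
      have hv : ((a : ℚ) - q * ((k + 1 : ℕ) : ℚ)) ≠ 0 := hP0 (k + 1) (by simp)
      have hP2' : (P2)⁻¹ = ((a : ℚ) - q * (0 : ℕ)) / P := by
        rw [e2]; field_simp
      have hP1' : (P1)⁻¹ = ((a : ℚ) - q * ((k + 1 : ℕ) : ℚ)) / P := by
        rw [e3]; field_simp
      rw [div_eq_mul_inv _ P2, div_eq_mul_inv _ P1, hP1', hP2', Nat.factorial_succ, pow_succ]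
      push_cast
      field_simp
      ring
    · calc |g2 - g1| ≤ |g2| + |g1| := abs_sub _ _
        _ ≤ 2 ^ k * L + 2 ^ k * L := add_le_add hb2 hb1
        _ = 2 ^ (k + 1) * L := by ring

/-- own block -/
lemma ownBlock (q : ℕ) (hq : 0 < q) : ∀ (k l : ℕ), l ≤ k →
    ∃ g : ℤ, (g : ℚ) = (k.factorial : ℚ) * q ^ k /
      ∏ i ∈ (range (k + 1)).erase l, ((q : ℚ) * l - q * i) ∧ |g| ≤ 2 ^ k := by
  intro k
  have hq' : (q : ℚ) ≠ 0 := by exact_mod_cast hq.ne'
  -- stronger: g = ± choose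
  suffices H : ∀ l, l ≤ k → ∃ s : ℤ, |s| = 1 ∧ ((s * (k.choose l) : ℤ) : ℚ) =
      (k.factorial : ℚ) * q ^ k / ∏ i ∈ (range (k + 1)).erase l, ((q : ℚ) * l - q * i) by
    intro l hl
    obtain ⟨s, hs, h⟩ := H l hl
    refine ⟨s * k.choose l, h, ?_⟩
    rw [abs_mul, hs, one_mul, abs_of_nonneg (by positivity)]
    exact_mod_cast Nat.choose_le_two_pow k l
  induction k with
  | zero =>
    intro l hl
    obtain rfl : l = 0 := by omega
    exact ⟨1, by simp, by simp⟩
  | succ k ih =>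
    intro l hl
    rcases Nat.lt_or_ge l (k + 1) with hlt | hge
    · obtain ⟨s, hs, h⟩ := ih l (by omega)
      refine ⟨-s, by rwa [abs_neg], ?_⟩
      have e1 : (range (k + 2)).erase l = insert (k + 1) ((range (k + 1)).erase l) := by
        ext i; simp only [mem_erase, mem_range, mem_insert]; omega
      have e2 : (k + 1) ∉ (range (k + 1)).erase l := by simp
      rw [e1, prod_insert e2]
      have hne : ∏ i ∈ (range (k + 1)).erase l, ((q : ℚ) * l - q * i) ≠ 0 := by
        refine prod_ne_zero_iff.mpr (fun i hi => ?_)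
        have hil : i ≠ l := (mem_erase.mp hi).1
        rw [← mul_sub]
        exact mul_ne_zero hq' (sub_ne_zero.mpr (by exact_mod_cast hil.symm))
      have h' : ((s : ℚ) * (k.choose l)) * ∏ i ∈ (range (k + 1)).erase l, ((q : ℚ) * l - q * i)
          = (k.factorial : ℚ) * q ^ k := by
        rw [eq_div_iff hne] at h
        push_cast at h
        exact h
      have hlk : ((l : ℚ) - ((k + 1 : ℕ) : ℚ)) ≠ 0 :=
        sub_ne_zero.mpr (by exact_mod_cast (by omega : l ≠ k + 1))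
      have hlast : ((q : ℚ) * l - q * ((k + 1 : ℕ) : ℚ)) ≠ 0 := by
        rw [← mul_sub]; exact mul_ne_zero hq' hlk
      rw [eq_div_iff (mul_ne_zero hlast hne)]
      have hch : ((k + 1).choose l : ℚ) * (((k + 1 : ℕ) : ℚ) - l) = (k.choose l : ℚ) * (k + 1 : ℕ) := by
        have h3 := Nat.choose_mul_succ_eq k l
        have h4 : ((k + 1 - l : ℕ) : ℚ) = ((k + 1 : ℕ) : ℚ) - l := by
          rw [Nat.cast_sub (by omega)]
        rw [← h4]
        exact_mod_cast h3.symm
      rw [Nat.factorial_succ, pow_succ]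
      push_cast at *
      have : (-(s : ℚ) * ((k + 1).choose l : ℚ)) * (((q : ℚ) * l - q * (k + 1)) *
          ∏ i ∈ (range (k + 1)).erase l, ((q : ℚ) * l - q * i))
          = q * (((k + 1).choose l : ℚ) * ((k + 1 : ℚ) - l)) *
            ((s : ℚ) * ∏ i ∈ (range (k + 1)).erase l, ((q : ℚ) * l - q * i)) := by ring
      rw [this, hch]
      calc (q : ℚ) * ((k.choose l : ℚ) * (k + 1)) *
            ((s : ℚ) * ∏ i ∈ (range (k + 1)).erase l, ((q : ℚ) * l - q * i))
          = q * (k + 1) * (((s : ℚ) * (k.choose l)) *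
            ∏ i ∈ (range (k + 1)).erase l, ((q : ℚ) * l - q * i)) := by ring
        _ = _ := by rw [h']; ring
    · obtain rfl : l = k + 1 := by omega
      refine ⟨1, by simp, ?_⟩
      have e1 : (range (k + 2)).erase (k + 1) = range (k + 1) := by
        ext i; simp only [mem_erase, mem_range]; omega
      rw [e1]
      have e2 : ∏ i ∈ range (k + 1), ((q : ℚ) * ((k + 1 : ℕ) : ℚ) - q * i)
          = ((k + 1).factorial : ℚ) * q ^ (k + 1) := by
        have : ∀ i ∈ range (k + 1), ((q : ℚ) * ((k + 1 : ℕ) : ℚ) - q * i)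
            = q * ((k + 1 - i : ℕ) : ℚ) := by
          intro i hi
          have hi' := mem_range.mp hi
          rw [Nat.cast_sub (by omega)]; ring
        rw [prod_congr rfl this, prod_mul_distrib, prod_const, card_range]
        have h2 : ∏ i ∈ range (k + 1), ((k + 1 - i : ℕ) : ℚ) = ((k + 1).factorial : ℚ) := by
          rw [← Nat.cast_prod]
          congr 1
          rw [← Nat.descFactorial_self, Nat.descFactorial_eq_prod_range]
        rw [h2]; ring
      rw [e2]
      have : (((k + 1).factorial : ℚ) * q ^ (k + 1)) ≠ 0 := by positivity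
      rw [div_self this]
      simp

end Pool.Agent.H44.NL
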