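import Pool.Agent.H44.NL.Final
import Pool.Agent.NL.LargeExp

/-! Large exponents and fixed exponents in terms of the equation. -/

namespace Pool.Agent.H44.NL
open Finset

/-- large exponents -/
theorem large (ε : ℝ) (hε : 0 < ε) : ∃ Q : ℕ, ∀ k n x y d : ℕ,
    Q ≤ k → 2 < n → 2 < x → 1 < y → y ^ k * (x - 1) = x ^ n - 1 →
    d ∣ x → Nat.Coprime k (d * d.totient) → (d : ℝ) < (x : ℝ) ^ ε := by
  obtain ⟨Q, hQ⟩ := Pool.Agent.NL.large_exponent (min ε (1 / 2)) (by positivity)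
    (lt_of_le_of_lt (min_le_right _ _) (by norm_num))
  refine ⟨Q, fun k n x y d hk hn hx hy hxy hd hco => ?_⟩
  have hx1 : 1 ≤ x ^ n := Nat.one_le_pow _ _ (by omega)
  have hrep : y ^ k = Pool.Agent.NL.rep x n := by
    have h1 := Pool.Agent.NL.rep_mul (x := x) (by omega) n
    have h2 : y ^ k * (x - 1) = Pool.Agent.NL.rep x n * (x - 1) := by omega
    exact Nat.eq_of_mul_eq_mul_right (by omega) h2
  have hxR : (1 : ℝ) ≤ x := by exact_mod_cast (by omega : 1 ≤ x)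
  exact (hQ k hk x y n d hx (by omega) hrep hd hco).trans_le
    (Real.rpow_le_rpow_of_exponent_le hxR (min_le_left _ _))

/-- a fixed exponent -/
theorem fixed {k m : ℕ} (hk : 2 ≤ k) (hmk : m * (m + 1) ≤ 2 * k) : ∃ c : ℝ, 0 < c ∧
    ∀ n x y d : ℕ, 2 < n → 1 < x → 1 < y → y ^ k * (x - 1) = x ^ n - 1 →
    d ∣ x → (d ∣ y - 1 ∨ Nat.Coprime k (d * d.totient)) →
    (d : ℝ) ≤ c * (x : ℝ) ^ ((1 : ℝ) / (m + 1) + m / (2 * k) + 1 / n) := by
  have hmk' : m < k := by
    by_contra h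
    have h1 : k * (k + 1) ≤ m * (m + 1) := Nat.mul_le_mul (by omega) (by omega)
    have h2 : k * (k + 1) ≤ 2 * k := h1.trans hmk
    nlinarith
  have hc : 0 < cst k m := Real.exp_pos _
  refine ⟨2 * cst k m, by positivity, fun n x y d hn hx hy hxy hd hco => ?_⟩
  have hx1 : 1 ≤ x ^ n := Nat.one_le_pow _ _ (by omega)
  have hxyZ : (y : ℤ) ^ k * ((x : ℤ) - 1) = (x : ℤ) ^ n - 1 := by
    have := congrArg (Nat.cast : ℕ → ℤ) hxy
    push_cast [Nat.cast_sub (by omega : 1 ≤ x), Nat.cast_sub hx1] at this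
    exact this
  have hrep : y ^ k = Pool.Agent.NL.rep x n := by
    have h1 := Pool.Agent.NL.rep_mul (x := x) (by omega) n
    have h2 : y ^ k * (x - 1) = Pool.Agent.NL.rep x n * (x - 1) := by omega
    exact Nat.eq_of_mul_eq_mul_right (by omega) h2
  have hdy : (d : ℤ) ∣ (y : ℤ) - 1 := by
    rcases hco with h | h
    · have h1 : (d : ℤ) ∣ ((y - 1 : ℕ) : ℤ) := by exact_mod_cast h
      rwa [Nat.cast_sub (by omega)] at h1
    · exact Pool.Agent.NL.base_modEq h hd (by omega) hrep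
  have h := gcd_final hmk' hmk (by omega : 1 ≤ n) (x := (x : ℤ)) (y := (y : ℤ)) (d := (d : ℤ))
    (by omega) (by omega) (by omega) (by exact_mod_cast hd) hdy hxyZ
  simpa using h

end Pool.Agent.H44.NL
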