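import Pool.Agent.H44.NL.Nodes

/-! Integral weights `g v = Λ / ∏ (node v - node w)`. -/

namespace Pool.Agent.H44.NL
open Finset Polynomial

lemma erase_prod {m : ℕ} {e : ℕ → ℕ} {j l : ℕ} (hj : j ∈ range (m + 1))
    (f : (_ : ℕ) × ℕ → ℚ) :
    ∏ w ∈ (idx m e).erase ⟨j, l⟩, f w =
      (∏ i ∈ (range (e j + 1)).erase l, f ⟨j, i⟩) *
        ∏ j' ∈ (range (m + 1)).erase j, ∏ i ∈ range (e j' + 1), f ⟨j', i⟩ := by
  have h1 : (idx m e).erase ⟨j, l⟩ = (range (m + 1)).sigma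
      (fun j' => if j' = j then (range (e j + 1)).erase l else range (e j' + 1)) := by
    ext ⟨j', l'⟩
    simp only [idx, mem_erase, mem_sigma, ne_eq, Sigma.mk.injEq, heq_eq_eq]
    by_cases hjj : j' = j
    · subst hjj
      simp
      tauto
    · simp [hjj]
  rw [h1, prod_sigma, ← mul_prod_erase _ _ hj]
  congr 1
  · simp
  · refine prod_congr rfl (fun j' hj' => ?_)
    rw [if_neg (mem_erase.mp hj').1]

lemma dvd_lcmUpto {N : ℕ} {a : ℤ} (h0 : a ≠ 0) (h : |a| ≤ N) : a ∣ (Nat.lcmUpto N : ℤ) := by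
  rw [← Int.natAbs_dvd, Int.natCast_dvd_natCast]
  have h1 : a.natAbs ∈ Icc 1 N := by
    rw [mem_Icc]
    constructor
    · exact Int.natAbs_pos.mpr h0
    · rw [← Int.natCast_natAbs] at h
      exact_mod_cast h
  exact Finset.dvd_lcm (f := id) h1

/-- the normalising constant -/
def lam (q m : ℕ) (e : ℕ → ℕ) (n : ℕ) : ℚ :=
  (∏ j ∈ range (m + 1), ((e j).factorial : ℚ) * q ^ (e j)) * (Nat.lcmUpto (q * n + m) : ℚ) ^ m

lemma lam_ne_zero {q : ℕ} (hq : 0 < q) (m : ℕ) (e : ℕ → ℕ) (n : ℕ) : lam q m e n ≠ 0 := by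
  unfold lam
  refine mul_ne_zero (prod_ne_zero_iff.mpr (fun j _ => ?_)) (pow_ne_zero _ ?_)
  · have : (q : ℚ) ≠ 0 := by exact_mod_cast hq.ne'
    positivity
  · exact_mod_cast Nat.lcmUpto_ne_zero _

theorem weights {q m : ℕ} (hm : m < q) (e : ℕ → ℕ) {n : ℕ}
    (hn : ∑ j ∈ range (m + 1), e j = n) :
    ∃ g : (_ : ℕ) × ℕ → ℤ, ∀ v ∈ idx m e,
      (g v : ℚ) = lam q m e n / ∏ w ∈ (idx m e).erase v, ((node q v : ℚ) - node q w) ∧
      |g v| ≤ 2 ^ n * (Nat.lcmUpto (q * n + m)) ^ m := by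
  classical
  set L := Nat.lcmUpto (q * n + m) with hL
  have hq : 0 < q := by omega
  suffices H : ∀ v ∈ idx m e, ∃ g : ℤ,
      (g : ℚ) = lam q m e n / ∏ w ∈ (idx m e).erase v, ((node q v : ℚ) - node q w) ∧
      |g| ≤ 2 ^ n * L ^ m by
    choose! g hg using H
    exact ⟨g, hg⟩
  rintro ⟨j, l⟩ hv
  obtain ⟨hj, hl⟩ := mem_idx.mp hv
  simp only at hj hl
  have hjr : j ∈ range (m + 1) := mem_range.mpr (by omega)
  have hle : ∀ j' ∈ range (m + 1), e j' ≤ n := by
    intro j' hj'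
    rw [← hn]
    exact single_le_sum (f := e) (fun i _ => Nat.zero_le _) hj'
  obtain ⟨g0, hg0, hb0⟩ := ownBlock q hq (e j) l hl
  have hblk : ∀ j' ∈ (range (m + 1)).erase j, ∃ g : ℤ,
      (g : ℚ) = ((e j').factorial : ℚ) * q ^ (e j') * L /
        ∏ i ∈ range (e j' + 1), (((node q ⟨j, l⟩ + j' : ℤ) : ℚ) - q * i) ∧
      |g| ≤ 2 ^ (e j') * L := by
    intro j' hj'
    obtain ⟨hne, hj'r⟩ := mem_erase.mp hj'
    have hj'm : j' ≤ m := by have := mem_range.mp hj'r; omega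
    refine block q L (e j') _ (fun i hi => ?_)
    have hi' : i ≤ e j' := by have := mem_range.mp hi; omega
    have hne' : node q ⟨j, l⟩ + j' - q * i ≠ 0 := by
      intro h0
      have h1 : node q ⟨j, l⟩ = node q ⟨j', i⟩ := by
        simp only [node] at h0 ⊢; linarith
      have := node_inj hm (v := ⟨j, l⟩) (w := ⟨j', i⟩) hj hj'm h1
      simp only [Sigma.mk.injEq] at this
      exact hne this.1.symm
    refine ⟨hne', dvd_lcmUpto hne' ?_⟩
    have hln : l ≤ n := hl.trans (hle j hjr)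
    have hin : i ≤ n := hi'.trans (hle j' hj'r)
    simp only [node]
    have h1 : (q : ℤ) * l ≤ q * n := by gcongr
    have h2 : (q : ℤ) * i ≤ q * n := by gcongr
    have h3 : (0 : ℤ) ≤ q * l := by positivity
    have h4 : (0 : ℤ) ≤ q * i := by positivity
    have h5 : (j : ℤ) ≤ m := by exact_mod_cast hj
    have h6 : (j' : ℤ) ≤ m := by exact_mod_cast hj'm
    push_cast
    rw [abs_le]; constructor <;> linarith [Int.natCast_nonneg j, Int.natCast_nonneg j']
  choose! gb hgb using hblk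
  refine ⟨g0 * ∏ j' ∈ (range (m + 1)).erase j, gb j', ?_, ?_⟩
  · rw [erase_prod hjr]
    push_cast
    rw [hg0, prod_congr rfl (fun j' hj' => (hgb j' hj').1), prod_div_distrib]
    have e1 : ∏ i ∈ (range (e j + 1)).erase l, ((node q ⟨j, l⟩ : ℚ) - node q ⟨j, i⟩)
        = ∏ i ∈ (range (e j + 1)).erase l, ((q : ℚ) * l - q * i) := by
      refine prod_congr rfl (fun i _ => ?_)
      simp only [node]; push_cast; ring
    have e2 : ∏ j' ∈ (range (m + 1)).erase j, ∏ i ∈ range (e j' + 1),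
          ((node q ⟨j, l⟩ : ℚ) - node q ⟨j', i⟩)
        = ∏ j' ∈ (range (m + 1)).erase j, ∏ i ∈ range (e j' + 1),
          (((node q ⟨j, l⟩ + j' : ℤ) : ℚ) - q * i) := by
      refine prod_congr rfl (fun j' _ => prod_congr rfl (fun i _ => ?_))
      simp only [node]; push_cast; ring
    rw [e1, e2]
    have e3 : lam q m e n = (((e j).factorial : ℚ) * q ^ (e j)) *
        ∏ j' ∈ (range (m + 1)).erase j, (((e j').factorial : ℚ) * q ^ (e j') * L) := by
      unfold lam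
      rw [prod_mul_distrib (f := fun j' => ((e j').factorial : ℚ) * q ^ (e j')) (g := fun _ => (L : ℚ)),
        prod_const, card_erase_of_mem hjr, card_range, Nat.add_sub_cancel, ← mul_assoc,
        mul_prod_erase (range (m + 1)) (fun j' => ((e j').factorial : ℚ) * q ^ (e j')) hjr]
    rw [e3]
    rw [div_mul_div_comm]
  · rw [abs_mul, abs_prod]
    have h1 : ∏ j' ∈ (range (m + 1)).erase j, |gb j'| ≤
        ∏ j' ∈ (range (m + 1)).erase j, ((2 : ℤ) ^ (e j') * L) :=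
      prod_le_prod (fun _ _ => abs_nonneg _) (fun j' hj' => (hgb j' hj').2)
    have h2 : ∏ j' ∈ (range (m + 1)).erase j, ((2 : ℤ) ^ (e j') * L)
        = (∏ j' ∈ (range (m + 1)).erase j, (2 : ℤ) ^ (e j')) * L ^ m := by
      rw [prod_mul_distrib, prod_const, card_erase_of_mem hjr, card_range, Nat.add_sub_cancel]
    have h3 : (2 : ℤ) ^ (e j) * ∏ j' ∈ (range (m + 1)).erase j, (2 : ℤ) ^ (e j') = 2 ^ n := by
      rw [mul_prod_erase (range (m + 1)) (fun j' => (2 : ℤ) ^ (e j')) hjr, prod_pow_eq_pow_sum, hn]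
    calc |g0| * ∏ j' ∈ (range (m + 1)).erase j, |gb j'|
        ≤ 2 ^ (e j) * ((∏ j' ∈ (range (m + 1)).erase j, (2 : ℤ) ^ (e j')) * L ^ m) := by
          rw [← h2]
          exact mul_le_mul hb0 h1 (prod_nonneg (fun _ _ => abs_nonneg _)) (by positivity)
      _ = 2 ^ n * L ^ m := by rw [← mul_assoc, h3]

/-- vanishing of the moments -/
theorem moment_zero {q m : ℕ} (hm : m < q) (e : ℕ → ℕ) {n : ℕ}
    (hn : ∑ j ∈ range (m + 1), e j = n) {g : (_ : ℕ) × ℕ → ℤ}
    (hg : ∀ v ∈ idx m e,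
      (g v : ℚ) = lam q m e n / ∏ w ∈ (idx m e).erase v, ((node q v : ℚ) - node q w))
    {P : ℚ[X]} (hP : P.degree < ((n + m : ℕ) : WithBot ℕ)) :
    ∑ v ∈ idx m e, (g v : ℚ) * P.eval (node q v : ℚ) = 0 := by
  classical
  have hcard : (idx m e).card = n + m + 1 := by rw [card_idx, hn]
  have hlt : P.degree < ((idx m e).card : WithBot ℕ) := by
    refine hP.trans ?_
    rw [hcard]
    exact_mod_cast Nat.lt_succ_self _
  have h := Lagrange.coeff_eq_sum (s := idx m e) (v := fun v => (node q v : ℚ))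
    (node_injOn hm e) hlt
  have h0 : P.coeff ((idx m e).card - 1) = 0 := by
    rw [hcard, Nat.add_sub_cancel]
    exact coeff_eq_zero_of_degree_lt hP
  rw [h0] at h
  have h2 : ∑ v ∈ idx m e, (g v : ℚ) * P.eval (node q v : ℚ) =
      lam q m e n * ∑ v ∈ idx m e, P.eval (node q v : ℚ) /
        ∏ w ∈ (idx m e).erase v, ((node q v : ℚ) - node q w) := by
    rw [mul_sum]
    refine sum_congr rfl (fun v hv => ?_)
    rw [hg v hv]; ring
  rw [h2, ← h, mul_zero]

/-- leading moment -/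
theorem moment_top {q m : ℕ} (hm : m < q) (e : ℕ → ℕ) {n : ℕ}
    (hn : ∑ j ∈ range (m + 1), e j = n) {g : (_ : ℕ) × ℕ → ℤ}
    (hg : ∀ v ∈ idx m e,
      (g v : ℚ) = lam q m e n / ∏ w ∈ (idx m e).erase v, ((node q v : ℚ) - node q w))
    {P : ℚ[X]} (hP : P.degree ≤ ((n + m : ℕ) : WithBot ℕ)) :
    ∑ v ∈ idx m e, (g v : ℚ) * P.eval (node q v : ℚ) = lam q m e n * P.coeff (n + m) := by
  classical
  have hcard : (idx m e).card = n + m + 1 := by rw [card_idx, hn]
  have hlt : P.degree < ((idx m e).card : WithBot ℕ) := by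
    refine hP.trans_lt ?_
    rw [hcard]
    exact_mod_cast Nat.lt_succ_self _
  have h := Lagrange.coeff_eq_sum (s := idx m e) (v := fun v => (node q v : ℚ))
    (node_injOn hm e) hlt
  rw [hcard, Nat.add_sub_cancel] at h
  rw [h, mul_sum]
  refine sum_congr rfl (fun v hv => ?_)
  rw [hg v hv]; ring

end Pool.Agent.H44.NL
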